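import Pool.Agent.R59.SP.Final
import Pool.Agent.R974.SP.Ker

/-!
MP_dc5c84_pr: every point process which mimics the sine process (at bandwidth 1, or at any
bandwidth `B > 0`) has, for every `ℓ`, no point in `[-ℓ, ℓ]` with positive probability. Hence the
constant `λ` of the problem is `+∞`.
-/

namespace Pool.Agent.Results.MP_dc5c84_pr.LargestGapInfinite

open MeasureTheory Filter Topology
open scoped SchwartzMap ENNReal

/-- The sine kernel `S(x) = sin(πx)/(πx)`, `S(0) = 1`. -/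
noncomputable def S (x : ℝ) : ℝ := if x = 0 then 1 else Real.sin (Real.pi * x) / (Real.pi * x)

/-- The Fourier transform on `ℝ^n`, with the kernel `exp(-2πi x·ξ)`. -/
noncomputable def FT (n : ℕ) (η : (Fin n → ℝ) → ℂ) (ξ : Fin n → ℝ) : ℂ :=
  ∫ x : Fin n → ℝ, Complex.exp (-(2 * Real.pi * Complex.I * ((∑ i, x i * ξ i : ℝ) : ℂ))) * η x

/-- A point process on the line: its points are random variables indexed by `ℤ` in nondecreasing
order and, almost surely, tend to `±∞` as the index tends to `±∞` (so the configuration is locally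
finite). Points may coincide (multiplicity). -/
structure IsPointProcess {Ω : Type} [MeasurableSpace Ω] (P : Measure Ω) (u : ℤ → Ω → ℝ) :
    Prop where
  meas : ∀ j, Measurable (u j)
  mono : ∀ᵐ ω ∂P, Monotone (fun j => u j ω)
  top : ∀ᵐ ω ∂P, Tendsto (fun j => u j ω) atTop atTop
  bot : ∀ᵐ ω ∂P, Tendsto (fun j => u j ω) atBot atBot

/-- Uniform local moments: for every `n ≥ 1` there is a finite `C` with
`E[(number of points in [L, L+1])^n] ≤ C` for all `L`. -/
def UniformLocalMoments {Ω : Type} [MeasurableSpace Ω] (P : Measure Ω) (u : ℤ → Ω → ℝ) : Prop :=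
  ∀ n : ℕ, 1 ≤ n → ∃ C : ℝ≥0∞, C ≠ ⊤ ∧ ∀ L : ℝ,
    ∫⁻ ω, ((({j : ℤ | u j ω ∈ Set.Icc L (L + 1)}.encard : ℕ∞) : ℝ≥0∞)) ^ n ∂P ≤ C

/-- The integral of `η` against the `n`-level correlation measure of the process:
the expectation of the sum of `η(u_{j_1}, …, u_{j_n})` over distinct indices. -/
noncomputable def corr {Ω : Type} [MeasurableSpace Ω] (P : Measure Ω) (u : ℤ → Ω → ℝ) (n : ℕ)
    (η : (Fin n → ℝ) → ℂ) : ℂ :=
  ∫ ω, ∑' j : (Fin n ↪ ℤ), η (fun i => u (j i) ω) ∂P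

/-- The integral of `η` against the `n`-level correlation measure
`det[S(x_i - x_k)] dx` of the sine process. -/
noncomputable def sineCorr (n : ℕ) (η : (Fin n → ℝ) → ℂ) : ℂ :=
  ∫ x : Fin n → ℝ, η x * ((Matrix.det (Matrix.of fun i k => S (x i - x k)) : ℝ) : ℂ)

/-- The process mimics the sine process at bandwidth `B`: the correlation measures agree on all
Schwartz functions of `n ≥ 1` variables with Fourier transform supported in `[-B, B]^n`. -/
def MimicsSine {Ω : Type} [MeasurableSpace Ω] (P : Measure Ω) (u : ℤ → Ω → ℝ) (B : ℝ) : Prop :=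
  ∀ n : ℕ, 1 ≤ n → ∀ η : 𝓢(Fin n → ℝ, ℂ),
    (∀ ξ : Fin n → ℝ, FT n η ξ ≠ 0 → ∀ i, |ξ i| ≤ B) →
    corr P u n η = sineCorr n η

/-- The class `T_B`: point processes with uniform local moments which mimic the sine process at
bandwidth `B`. -/
structure InClass {Ω : Type} [MeasurableSpace Ω] (P : Measure Ω) (u : ℤ → Ω → ℝ) (B : ℝ) :
    Prop where
  pp : IsPointProcess P u
  ulm : UniformLocalMoments P u
  mimics : MimicsSine P u B

/-- Almost surely all consecutive gaps are at most `ℓ`. -/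
def GapsAtMost {Ω : Type} [MeasurableSpace Ω] (P : Measure Ω) (u : ℤ → Ω → ℝ) (ℓ : ℝ) : Prop :=
  ∀ᵐ ω ∂P, ∀ j : ℤ, |u (j + 1) ω - u j ω| ≤ ℓ

/-- The constant `λ` of the problem, the infimum of the empty set being `+∞`. -/
noncomputable def lam : EReal :=
  sInf {x : EReal | ∃ ℓ : ℝ, x = (ℓ : EReal) ∧
    ∃ (Ω : Type) (_ : MeasurableSpace Ω) (P : Measure Ω) (_ : IsProbabilityMeasure P)
      (u : ℤ → Ω → ℝ), InClass P u 1 ∧ GapsAtMost P u ℓ}

/-- Every process mimicking the sine process at some bandwidth `B > 0` has, for every `ℓ`, an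
empty interval `[-ℓ, ℓ]` with positive probability and does not have all gaps at most `ℓ` almost
surely. In particular `λ = +∞`. -/
theorem result :
    (∀ (Ω : Type) [MeasurableSpace Ω] (P : Measure Ω) [IsProbabilityMeasure P]
      (u : ℤ → Ω → ℝ) (B : ℝ), 0 < B → InClass P u B →
      (∀ ℓ : ℝ, 0 < P {ω | ∀ j : ℤ, ℓ < |u j ω|}) ∧ ∀ ℓ : ℝ, ¬ GapsAtMost P u ℓ) ∧
    lam = ⊤ := by
  have main : ∀ (Ω : Type) [MeasurableSpace Ω] (P : Measure Ω) [IsProbabilityMeasure P]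
      (u : ℤ → Ω → ℝ) (B : ℝ), 0 < B → InClass P u B →
      (∀ ℓ : ℝ, 0 < P {ω | ∀ j : ℤ, ℓ < |u j ω|}) ∧ ∀ ℓ : ℝ, ¬ GapsAtMost P u ℓ := by
    intro Ω _ P _ u B hB hu
    have hpp : R59.SP.IsPP P u := ⟨hu.pp.meas, hu.pp.mono, hu.pp.top, hu.pp.bot⟩
    have hulm : R59.SP.ULM P u := hu.ulm
    have hm : R59.SP.MimicsSine P u B := hu.mimics
    have key : ∀ ℓ : ℝ, ¬ ∀ᵐ ω ∂P, ∃ j, |u j ω| ≤ ℓ := fun ℓ =>
      R59.SP.not_ae_main R974.SP.Ker.ker P u B hB hpp hulm hm ℓ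
    refine ⟨fun ℓ => ?_, fun ℓ hgap => ?_⟩
    · have h := key ℓ
      rw [ae_iff] at h
      have e : {ω | ¬ ∃ j, |u j ω| ≤ ℓ} = {ω | ∀ j : ℤ, ℓ < |u j ω|} := by
        ext ω
        simp only [Set.mem_setOf_eq, not_exists, not_le]
      rw [e] at h
      exact pos_iff_ne_zero.2 h
    · refine key ℓ ?_
      filter_upwards [hgap, hu.pp.top, hu.pp.bot] with ω h1 h2 h3
      exact R59.SP.exists_point h2 h3 h1
  refine ⟨main, ?_⟩
  have hemp : {x : EReal | ∃ ℓ : ℝ, x = (ℓ : EReal) ∧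
      ∃ (Ω : Type) (_ : MeasurableSpace Ω) (P : Measure Ω) (_ : IsProbabilityMeasure P)
        (u : ℤ → Ω → ℝ), InClass P u 1 ∧ GapsAtMost P u ℓ} = ∅ := by
    rw [Set.eq_empty_iff_forall_notMem]
    rintro x ⟨ℓ, -, Ω, _, P, _, u, hu, hg⟩
    exact (main Ω P u 1 one_pos hu).2 ℓ hg
  rw [lam, hemp, sInf_empty]

end Pool.Agent.Results.MP_dc5c84_pr.LargestGapInfinite
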